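import Pool.Agent.N831.GA.E

/-!
# The exponent of the smallest gaps and the zeros of the derivative

`α = liminf log (γ_{n+1} - γ_n) / log n`.  We prove, without any hypothesis, that for every `a ≥ 0`
the inequality `α ≥ -a` holds if and only if, for every `ε > 0`, all but finitely many of the zeros
of `ζ'` in the upper half plane satisfy `Re s > 1/2 + (Im s)^(-2a-ε)`.  As `α ≤ 0`, this determines
`α` by the zeros of `ζ'`.

The local form holds for all combinations `ζ' + c ζ` and near every height around which the zeros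
of `ζ` are on the critical line: in every gap of length `d ≤ 1/(C log t)` there is the ordinate of a
zero of `ζ' + c ζ` at distance at most `C d^2 log t` from the line, on its right; and near a zero of
`ζ' + c ζ` at distance `x` there are two zeros of `ζ` (or a multiple one) within `δ` as soon as
`δ^2 > C x log t`.  There is no loss from clusters of many zeros: the proof uses that the
logarithmic derivative of `ξ` is a typically real function (Rogosinski) around the points of the
critical line.
-/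

set_option autoImplicit false

open Filter Topology

namespace Pool.Agent.Results.MP_af3d17_nt.GapsAndDerivative

/-- multiplicity of `s` as a zero of the Riemann zeta function (order of vanishing at `s`) -/
noncomputable def zmult (s : ℂ) : ℕ := analyticOrderNatAt riemannZeta s

/-- the number of nontrivial zeros of `ζ` with ordinate in `(0, t]`, with multiplicity -/
noncomputable def NZ (t : ℝ) : ℕ :=
  ∑ᶠ s ∈ {s : ℂ | riemannZeta s = 0 ∧ 0 < s.re ∧ s.re < 1 ∧ 0 < s.im ∧ s.im ≤ t}, zmult s

/-- for `n ≥ 1`: the `n`-th positive ordinate `γ n` of a nontrivial zero of `ζ`, the ordinates being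
listed in nondecreasing order and repeated according to multiplicity -/
noncomputable def γ (n : ℕ) : ℝ := sInf {t : ℝ | n ≤ NZ t}

/-- the logarithm, with `log y = -∞` for `y ≤ 0` -/
noncomputable def lg (y : ℝ) : EReal := if 0 < y then ((Real.log y : ℝ) : EReal) else ⊥

/-- the exponent `α = liminf log (γ_{n+1} - γ_n) / log n` of the smallest gaps -/
noncomputable def α : EReal :=
  liminf (fun n : ℕ => lg (γ (n + 1) - γ n) / ((Real.log n : ℝ) : EReal)) atTop

/-- the zeros of `ζ` with ordinate within `5` of `t` are on the critical line -/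
def OnLine (t : ℝ) : Prop := ∀ s : ℂ, riemannZeta s = 0 → |s.im - t| ≤ 5 → s.re = 1 / 2

lemma α_eq : α = liminf (fun n : ℕ => N831.GA.lg (N831.GA.Ord.ord (n + 1) - N831.GA.Ord.ord n) /
    ((Real.log n : ℝ) : EReal)) atTop := rfl

/-- **The smallest gaps and the zeros of the derivative.** -/
theorem result :
    (∀ a : ℝ, 0 ≤ a → (((-a : ℝ) : EReal) ≤ α ↔
      ∀ ε : ℝ, 0 < ε → ∃ T : ℝ, ∀ s : ℂ, deriv riemannZeta s = 0 → T ≤ s.im →
        s.im ^ (-(2 * a + ε)) < s.re - 1 / 2)) ∧
    (∀ c : ℂ, ∃ C T₀ : ℝ, 0 < C ∧ 1 < T₀ ∧ ∀ t : ℝ, T₀ ≤ t → OnLine t →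
      (∀ a b : ℝ, |a - t| ≤ 1 → |b - t| ≤ 1 → a < b →
        riemannZeta (1 / 2 + a * Complex.I) = 0 → riemannZeta (1 / 2 + b * Complex.I) = 0 →
        (∀ u : ℝ, a < u → u < b → riemannZeta (1 / 2 + u * Complex.I) ≠ 0) →
        b - a ≤ 1 / (C * Real.log t) →
        ∃ s : ℂ, deriv riemannZeta s + c * riemannZeta s = 0 ∧ a < s.im ∧ s.im < b ∧
          1 / 2 < s.re ∧ s.re - 1 / 2 ≤ C * (b - a) ^ 2 * Real.log t) ∧
      (∀ s : ℂ, s.im = t → deriv riemannZeta s + c * riemannZeta s = 0 → 1 / 2 < s.re →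
        ∀ δ : ℝ, 0 < δ → δ ≤ 1 / 4 → C * (s.re - 1 / 2) * Real.log t < δ ^ 2 →
        (∃ ρ : ℂ, riemannZeta ρ = 0 ∧ deriv riemannZeta ρ = 0 ∧ |ρ.im - t| < δ) ∨
        ∃ ρ ρ' : ℂ, ρ ≠ ρ' ∧ riemannZeta ρ = 0 ∧ riemannZeta ρ' = 0 ∧
          |ρ.im - t| < δ ∧ |ρ'.im - t| < δ)) := by
  refine ⟨fun a ha => ?_, fun c => ?_⟩
  · rw [α_eq]
    exact N831.GA.main a ha
  · obtain ⟨C2, T2, hC2, hT2, h2⟩ := N831.GA.dir2 c N831.GA.D2
    obtain ⟨C1, T1, hC1, hT1, h1⟩ := N831.GA.dir1 c N831.GA.TR1 N831.GA.D1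
    refine ⟨C1 + C2, max T1 T2, by linarith, lt_of_lt_of_le (by linarith) (le_max_left _ _),
      fun t ht hL => ⟨?_, ?_⟩⟩
    · intro a b ha hb hab hza hzb hno hC
      have ht2 : T2 ≤ t := (le_max_right _ _).trans ht
      have hl : 0 < Real.log t := Real.log_pos (by linarith)
      have hba : 0 < b - a := by linarith
      rw [le_div_iff₀ (by positivity)] at hC
      have h3 : 0 ≤ C1 * ((b - a) * Real.log t) := by positivity
      obtain ⟨s, s1, s2, s3, s4, s5⟩ := h2 t a b ht2 hL ha hb hab hza hzb hno (by nlinarith)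
      refine ⟨s, s1, s2, s3, s4, s5.trans ?_⟩
      have h4 : 0 ≤ C1 * (b - a) ^ 2 * Real.log t := by positivity
      nlinarith
    · rintro s rfl hs hre δ hδ hδ4 hC
      have ht1 : T1 ≤ s.im := (le_max_left _ _).trans ht
      have hl : 0 < Real.log s.im := Real.log_pos (by linarith)
      have hx : 0 < s.re - 1 / 2 := by linarith
      refine h1 s ht1 hL hs hre δ hδ hδ4 ?_
      have h3 : 0 ≤ C2 * ((s.re - 1 / 2) * Real.log s.im) := by positivity
      nlinarith

end Pool.Agent.Results.MP_af3d17_nt.GapsAndDerivative
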